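import Mathlib

set_option autoImplicit false

/-!
# A triplet cover that is not shellable

We give a binary phylogenetic tree with `12` leaves and a triplet cover with `27` pairs for it that is
not shellable. Exactly three of the `39` missing pairs can be added by the shelling rule.
-/

namespace Pool.Agent.Results.MP_66d22e_co.NotShellable

/-- A binary phylogenetic `X`-tree: a finite tree whose vertices of degree one are labelled
bijectively by `X` and all of whose other vertices have degree three. -/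
structure PhyloTree (X : Type) where
  /-- the vertices -/
  V : Type
  /-- there are finitely many vertices -/
  finite : Finite V
  /-- the graph -/
  graph : SimpleGraph V
  /-- the graph is a tree -/
  isTree : graph.IsTree
  /-- the labelling of the leaves -/
  leaf : X → V
  /-- different labels belong to different leaves -/
  leaf_injective : Function.Injective leaf
  /-- the labelled vertices are leaves -/
  leaf_degree : ∀ x, (graph.neighborSet (leaf x)).ncard = 1
  /-- the other (interior) vertices have degree three -/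
  interior_degree : ∀ v, v ∉ Set.range leaf → (graph.neighborSet v).ncard = 3

/-- `a` and `b` lie in different connected components of the tree with the vertex `v` and its
incident edges removed. -/
def Separated {X : Type} (T : PhyloTree X) (v : T.V) (a b : X) : Prop :=
  T.leaf a ≠ v ∧ T.leaf b ≠ v ∧ ¬ (T.graph.deleteIncidenceSet v).Reachable (T.leaf a) (T.leaf b)

/-- The triple `abc` supports the vertex `v` relative to the set `C` of pairs. -/
def Supports {X : Type} (T : PhyloTree X) (C : Set (Sym2 X)) (v : T.V) (a b c : X) : Prop :=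
  Separated T v a b ∧ Separated T v a c ∧ Separated T v b c ∧
    s(a, b) ∈ C ∧ s(a, c) ∈ C ∧ s(b, c) ∈ C

/-- `C` is a triplet cover for `T`: a set of `2`-subsets of `X` such that every interior vertex is
supported by some triple. -/
def IsTripletCover {X : Type} (T : PhyloTree X) (C : Set (Sym2 X)) : Prop :=
  (∀ e ∈ C, ¬ e.IsDiag) ∧ ∀ v, v ∉ Set.range T.leaf → ∃ a b c, Supports T C v a b c

/-- The restriction of `T` to `{x, a, y, b}` is the quartet `xa|yb`: the path from `x` to `a` and the
path from `y` to `b` are vertex-disjoint. -/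
def Quartet {X : Type} (T : PhyloTree X) (x a y b : X) : Prop :=
  ∃ (p : T.graph.Walk (T.leaf x) (T.leaf a)) (q : T.graph.Walk (T.leaf y) (T.leaf b)),
    p.IsPath ∧ q.IsPath ∧ ∀ v, v ∈ p.support → v ∉ q.support

/-- The pair `e = ab` can be added to the set `D` of pairs by the shelling rule: for some
`x, y ∈ X \ {a, b}`, `x ≠ y`, the restriction of `T` to `{a, b, x, y}` is the quartet `xa|yb` and the
five pairs in `{a, b, x, y}` other than `ab` belong to `D`. -/
def CanAdd {X : Type} (T : PhyloTree X) (D : Set (Sym2 X)) (e : Sym2 X) : Prop :=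
  ∃ a b x y : X, e = s(a, b) ∧ a ≠ b ∧ x ≠ a ∧ x ≠ b ∧ y ≠ a ∧ y ≠ b ∧ x ≠ y ∧
    Quartet T x a y b ∧
    s(a, x) ∈ D ∧ s(a, y) ∈ D ∧ s(b, x) ∈ D ∧ s(b, y) ∈ D ∧ s(x, y) ∈ D

/-- `C` is shellable: the `2`-subsets of `X` outside `C` have an ordering `l` in which each can be
added by the shelling rule to `C` together with the preceding ones. -/
def Shellable {X : Type} (T : PhyloTree X) (C : Set (Sym2 X)) : Prop :=
  ∃ l : List (Sym2 X), l.Nodup ∧ (∀ e, e ∈ l ↔ ¬ e.IsDiag ∧ e ∉ C) ∧
    ∀ (i : ℕ) (h : i < l.length), CanAdd T (C ∪ {e | e ∈ l.take i}) l[i]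

/-! ### The general obstruction -/

theorem not_shellable_of_closed {X : Type} {T : PhyloTree X} {C S : Set (Sym2 X)} (hCS : C ⊆ S)
    (hS : ∀ e, CanAdd T S e → e ∈ S) {e₀ : Sym2 X} (h₀ : ¬ e₀.IsDiag) (h₁ : e₀ ∉ S) :
    ¬ Shellable T C := by
  rintro ⟨l, -, hl, hadd⟩
  have key : ∀ (i : ℕ) (h : i < l.length), l[i] ∈ S := by
    intro i
    induction i using Nat.strong_induction_on with
    | _ i ih =>
      intro h
      have hsub : C ∪ {e | e ∈ l.take i} ⊆ S := by
        rintro e (he | he)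
        · exact hCS he
        · obtain ⟨j, hj, rfl⟩ := List.mem_iff_getElem.1 he
          rw [List.length_take] at hj
          rw [List.getElem_take]
          exact ih j (by omega) (by omega)
      apply hS
      obtain ⟨a, b, x, y, h1, h2, h3, h4, h5, h6, h7, h8, h9, h10, h11, h12, h13⟩ := hadd i h
      exact ⟨a, b, x, y, h1, h2, h3, h4, h5, h6, h7, h8, hsub h9, hsub h10, hsub h11, hsub h12,
        hsub h13⟩
  have h2 : e₀ ∈ l := (hl e₀).2 ⟨h₀, fun h => h₁ (hCS h)⟩
  obtain ⟨i, hi, rfl⟩ := List.mem_iff_getElem.1 h2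
  exact h₁ (key i hi)

/-- If `f` is constant on the edges avoiding `v`, then a walk between vertices with different values
passes through `v`. -/
theorem mem_support_of_ne {V A : Type} {G : SimpleGraph V} {v : V} {f : V → A}
    (hf : ∀ u w, G.Adj u w → u ≠ v → w ≠ v → f u = f w) {s t : V} (p : G.Walk s t)
    (hst : f s ≠ f t) : v ∈ p.support := by
  induction p with
  | nil => exact absurd rfl hst
  | @cons u w t h p ih =>
    rw [SimpleGraph.Walk.support_cons, List.mem_cons]
    by_cases hu : v = u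
    · exact Or.inl hu
    · right
      by_cases hw : v = w
      · rw [hw]; exact p.start_mem_support
      · exact ih (by rw [← hf u w h (Ne.symm hu) (Ne.symm hw)]; exact hst)

theorem not_reachable_of_ne {V A : Type} {G : SimpleGraph V} {v : V} {f : V → A}
    (hf : ∀ u w, G.Adj u w → u ≠ v → w ≠ v → f u = f w) {s t : V} (hst : f s ≠ f t) :
    ¬ (G.deleteIncidenceSet v).Reachable s t := by
  rintro ⟨p⟩
  induction p with
  | nil => exact hst rfl
  | @cons u w t h p ih =>
    rw [SimpleGraph.deleteIncidenceSet_adj] at h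
    apply ih
    rw [← hf u w h.1 h.2.1 h.2.2]
    exact hst

/-! ### The example -/

/-- the rows of the adjacency matrix of the tree, as binary numbers -/
def adjRow (v : Fin 22) : ℕ :=
  [4096, 8192, 262144, 8192, 16384, 32768, 65536, 131072, 262144, 1048576, 1048576, 2097152,
    2162689, 524298, 589840, 393248, 20544, 2130048, 33028, 1073152, 525824, 137216].getD v 0

/-- adjacency in the tree -/
def adjB (u v : Fin 22) : Bool := (adjRow u).testBit v

theorem adjB_symm : ∀ u v, adjB u v = true → adjB v u = true := by decide +kernel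

theorem adjB_irrefl : ∀ u, adjB u u = false := by decide +kernel

/-- the tree, with the leaves `0, …, 11` and the interior vertices `12, …, 21` -/
def G : SimpleGraph (Fin 22) where
  Adj u v := adjB u v = true
  symm := ⟨fun u v h => adjB_symm u v h⟩
  loopless := ⟨fun u h => by rw [adjB_irrefl u] at h; exact Bool.noConfusion h⟩

instance : DecidableRel G.Adj := fun u v => inferInstanceAs (Decidable (adjB u v = true))

/-- the neighbour on the way to the vertex `12` -/
def par (v : Fin 22) : Fin 22 :=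
  [12, 13, 18, 13, 14, 15, 16, 17, 18, 20, 20, 21, 12, 19, 16, 17, 12, 21, 15, 14, 19, 12].getD v 12

/-- the distance to the vertex `12` -/
def dep (v : Fin 22) : ℕ :=
  [1, 5, 5, 5, 3, 4, 2, 3, 5, 5, 5, 2, 0, 4, 2, 3, 1, 2, 4, 3, 4, 1].getD v 0

theorem par_spec : ∀ v : Fin 22, v ≠ 12 → G.Adj v (par v) ∧ dep (par v) < dep v := by
  decide +kernel

theorem reach : ∀ (n : ℕ) (v : Fin 22), dep v ≤ n → G.Reachable v 12 := by
  intro n
  induction n with
  | zero =>
    intro v hv
    by_cases h : v = 12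
    · rw [h]
    · have := (par_spec v h).2
      omega
  | succ n ih =>
    intro v hv
    by_cases h : v = 12
    · rw [h]
    · obtain ⟨h1, h2⟩ := par_spec v h
      exact h1.reachable.trans (ih _ (by omega))

theorem G_connected : G.Connected := by
  have : Nonempty (Fin 22) := ⟨0⟩
  refine SimpleGraph.Connected.mk (fun u v => ?_)
  exact (reach _ u le_rfl).trans (reach _ v le_rfl).symm

theorem G_isTree : G.IsTree := by
  rw [SimpleGraph.isTree_iff_connected_and_card]
  refine ⟨G_connected, ?_⟩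
  have h := G.two_mul_card_edgeFinset
  have h2 : (Finset.univ.filter fun p : Fin 22 × Fin 22 => G.Adj p.1 p.2).card = 42 := by
    decide +kernel
  have h3 : 2 * G.edgeFinset.card = 42 := h.trans h2
  rw [Nat.card_eq_fintype_card, Nat.card_eq_fintype_card, Fintype.card_fin,
    ← SimpleGraph.edgeFinset_card]
  omega

/-- the leaf with a given label -/
def lf (x : Fin 12) : Fin 22 := x.castLE (by norm_num)

theorem degrees : ∀ v : Fin 22, (Finset.univ.filter fun w => G.Adj v w).card =
    if (v : ℕ) < 12 then 1 else 3 := by decide +kernel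

theorem ncard_neighborSet (v : Fin 22) : (G.neighborSet v).ncard = if (v : ℕ) < 12 then 1 else 3 := by
  rw [← degrees v, ← Set.ncard_coe_finset]
  congr 1
  ext w
  simp [SimpleGraph.mem_neighborSet]

theorem mem_range_lf {v : Fin 22} : v ∈ Set.range lf ↔ (v : ℕ) < 12 := by
  constructor
  · rintro ⟨x, rfl⟩
    exact x.2
  · intro h
    exact ⟨⟨v, h⟩, rfl⟩

/-- the phylogenetic tree of the example -/
def T : PhyloTree (Fin 12) where
  V := Fin 22
  finite := inferInstance
  graph := G
  isTree := G_isTree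
  leaf := lf
  leaf_injective := Fin.castLE_injective (by norm_num)
  leaf_degree x := by
    rw [ncard_neighborSet, if_pos]
    exact x.2
  interior_degree v hv := by
    rw [mem_range_lf] at hv
    rw [ncard_neighborSet, if_neg hv]

/-- the component containing `u` of the tree with the interior vertex `v` removed (`v = 12 + i` for
the `i`-th row, `i ≥ 0`) -/
def comp (v u : Fin 22) : ℕ :=
  ([[0, 1, 2, 1, 1, 2, 1, 2, 2, 1, 1, 2, 0, 1, 1, 2, 1, 2, 2, 1, 1, 2],
    [2, 0, 2, 1, 2, 2, 2, 2, 2, 2, 2, 2, 2, 0, 2, 2, 2, 2, 2, 2, 2, 2],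
    [1, 2, 1, 2, 0, 1, 1, 1, 1, 2, 2, 1, 1, 2, 0, 1, 1, 1, 1, 2, 2, 1],
    [1, 1, 2, 1, 1, 0, 1, 1, 2, 1, 1, 1, 1, 1, 1, 0, 1, 1, 2, 1, 1, 1],
    [1, 2, 1, 2, 2, 1, 0, 1, 1, 2, 2, 1, 1, 2, 2, 1, 0, 1, 1, 2, 2, 1],
    [2, 2, 1, 2, 2, 1, 2, 0, 1, 2, 2, 2, 2, 2, 2, 1, 2, 0, 1, 2, 2, 2],
    [2, 2, 0, 2, 2, 2, 2, 2, 1, 2, 2, 2, 2, 2, 2, 2, 2, 2, 0, 2, 2, 2],
    [1, 0, 1, 0, 1, 1, 1, 1, 1, 2, 2, 1, 1, 0, 1, 1, 1, 1, 1, 0, 2, 1],
    [2, 2, 2, 2, 2, 2, 2, 2, 2, 0, 1, 2, 2, 2, 2, 2, 2, 2, 2, 2, 0, 2],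
    [1, 1, 2, 1, 1, 2, 1, 2, 2, 1, 1, 0, 1, 1, 1, 2, 1, 2, 2, 1, 1, 0]].getD
      ((v : ℕ) - 12) []).getD u 0

theorem comp_spec : ∀ v u w : Fin 22, 12 ≤ (v : ℕ) → G.Adj u w → u ≠ v → w ≠ v →
    comp v u = comp v w := by decide +kernel

/-- the triplet cover: the pairs `ab` with `b` in the `a`-th row -/
def tB (a b : Fin 12) : Bool :=
  ([2218, 89, 944, 1411, 102, 2325, 3090, 525, 1068, 3204, 2888, 1633].getD a 0).testBit b

/-- its closure under the shelling rule -/
def sB (a b : Fin 12) : Bool :=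
  ([2218, 217, 944, 1411, 358, 2325, 3602, 527, 1084, 3268, 2888, 1633].getD a 0).testBit b

theorem tB_symm : ∀ a b, tB a b = tB b a := by decide +kernel

theorem sB_symm : ∀ a b, sB a b = sB b a := by decide +kernel

theorem tB_irrefl : ∀ a, tB a a = false := by decide +kernel

theorem tB_le_sB : ∀ a b, tB a b = true → sB a b = true := by decide +kernel

/-- the triplet cover of the example, a set of `27` pairs -/
def C : Set (Sym2 (Fin 12)) := {e | ∃ a b, e = s(a, b) ∧ tB a b = true}

/-- the closure of `C`, a set of `30` pairs -/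
def S : Set (Sym2 (Fin 12)) := {e | ∃ a b, e = s(a, b) ∧ sB a b = true}

theorem mem_C {a b : Fin 12} : s(a, b) ∈ C ↔ tB a b = true := by
  constructor
  · rintro ⟨a', b', h, h'⟩
    rw [Sym2.eq_iff] at h
    rcases h with ⟨rfl, rfl⟩ | ⟨rfl, rfl⟩
    · exact h'
    · rw [tB_symm]; exact h'
  · intro h
    exact ⟨a, b, rfl, h⟩

theorem mem_S {a b : Fin 12} : s(a, b) ∈ S ↔ sB a b = true := by
  constructor
  · rintro ⟨a', b', h, h'⟩
    rw [Sym2.eq_iff] at h
    rcases h with ⟨rfl, rfl⟩ | ⟨rfl, rfl⟩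
    · exact h'
    · rw [sB_symm]; exact h'
  · intro h
    exact ⟨a, b, rfl, h⟩

/-- the supporting triples -/
def tr (v : Fin 22) : Fin 12 × Fin 12 × Fin 12 :=
  [(0, 3, 7), (1, 3, 0), (4, 6, 1), (5, 4, 2), (11, 10, 6), (2, 7, 9), (2, 5, 8), (3, 8, 10),
    (9, 11, 10), (0, 5, 11)].getD ((v : ℕ) - 12) (0, 0, 0)

theorem tr_spec : ∀ v : Fin 22, 12 ≤ (v : ℕ) →
    comp v (lf (tr v).1) ≠ comp v (lf (tr v).2.1) ∧ comp v (lf (tr v).1) ≠ comp v (lf (tr v).2.2) ∧
    comp v (lf (tr v).2.1) ≠ comp v (lf (tr v).2.2) ∧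
    tB (tr v).1 (tr v).2.1 = true ∧ tB (tr v).1 (tr v).2.2 = true ∧
    tB (tr v).2.1 (tr v).2.2 = true := by decide +kernel

theorem separated_of_comp {v : Fin 22} (hv : 12 ≤ (v : ℕ)) {a b : Fin 12}
    (h : comp v (lf a) ≠ comp v (lf b)) : Separated T v a b := by
  have hne : ∀ x : Fin 12, lf x ≠ v := by
    intro x hx
    have h1 : ((lf x : Fin 22) : ℕ) < 12 := x.2
    rw [hx] at h1
    omega
  exact ⟨hne a, hne b, not_reachable_of_ne (fun u w => comp_spec v u w hv) h⟩

theorem C_cover : IsTripletCover T C := by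
  constructor
  · rintro e ⟨a, b, rfl, h⟩ hd
    rw [Sym2.mk_isDiag_iff] at hd
    subst hd
    rw [tB_irrefl] at h
    exact Bool.noConfusion h
  · intro v hv
    have hv' : 12 ≤ (v : Fin 22).val := by
      by_contra h
      exact hv (mem_range_lf.2 (by omega))
    obtain ⟨h1, h2, h3, h4, h5, h6⟩ := tr_spec v hv'
    exact ⟨(tr v).1, (tr v).2.1, (tr v).2.2, separated_of_comp hv' h1, separated_of_comp hv' h2,
      separated_of_comp hv' h3, mem_C.2 h4, mem_C.2 h5, mem_C.2 h6⟩

theorem closed : ∀ x y : Fin 12, sB x y = true → ∀ a : Fin 12, sB a x = true → sB a y = true →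
    ∀ b : Fin 12, sB b x = true → sB b y = true → a ≠ b →
    sB a b = true ∨ ∃ v : Fin 22, 12 ≤ (v : ℕ) ∧ comp v (lf x) ≠ comp v (lf a) ∧
      comp v (lf y) ≠ comp v (lf b) := by decide +kernel

theorem S_closed : ∀ e, CanAdd T S e → e ∈ S := by
  rintro e ⟨a, b, x, y, rfl, hab, -, -, -, -, -, hq, h1, h2, h3, h4, h5⟩
  rw [mem_S] at h1 h2 h3 h4 h5 ⊢
  rcases closed x y h5 a h1 h2 b h3 h4 hab with h | ⟨v, hv, h6, h7⟩
  · exact h
  · exfalso
    obtain ⟨p, q, -, -, hpq⟩ := hq
    have hp : v ∈ p.support := mem_support_of_ne (fun u w => comp_spec v u w hv) p h6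
    have hq' : v ∈ q.support := mem_support_of_ne (fun u w => comp_spec v u w hv) q h7
    exact hpq v hp hq'

/-- **Main theorem.** There are a binary phylogenetic tree `T` with `12` leaves and a triplet cover
`C` for `T` that is not shellable. -/
theorem result : ∃ (T : PhyloTree (Fin 12)) (C : Set (Sym2 (Fin 12))),
    IsTripletCover T C ∧ ¬ Shellable T C := by
  refine ⟨T, C, C_cover, not_shellable_of_closed (S := S) ?_ S_closed (e₀ := s(0, 2)) ?_ ?_⟩
  · rintro e ⟨a, b, rfl, h⟩
    exact mem_S.2 (tB_le_sB a b h)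
  · rw [Sym2.mk_isDiag_iff]
    decide
  · rw [mem_S]
    decide +kernel

end Pool.Agent.Results.MP_66d22e_co.NotShellable
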